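import Pool.Agent.N430.CV.B10

/-!
# Moments of the central values over all elliptic curves over `𝔽_q(t)`

Let `F` be a finite field of odd characteristic with `q` elements.  The `L`-function of an elliptic curve
`E : y² = x³ + A x + B` over `F(t)` is a polynomial `∏ (1 - α i T)` with `|α i| = q` (Grothendieck,
Deligne), and its value at the central point `T = q⁻¹` is the analytic side of the formula of Birch and
Swinnerton-Dyer; if it is not zero, the group `Ш(E)` is finite and the value is the order of `Ш(E)` times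
elementary factors (Tate, Milne).

We prove the upper bounds of the conjectures of Keating and Snaith for this family: the mean of
`L(E, q⁻¹) ^ t` over the `E` with `deg A < 4 d`, `deg B < 6 d` is at most `C d ^ (t (t - 1) / 2 + ε)`, for all
real `t > 0` and `ε > 0`, with `C = C(t, ε)` independent of `d` AND of `q`. Hence the proportion of the `E`
with `L(E, q⁻¹) ≥ d ^ (y - 1 / 2)` is at most `C d ^ (-y² / 2 + ε)`, for all `y > 0`.

The existence and the properties of the `L`-function enter through the structure `LFunction`.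
-/

set_option autoImplicit false

namespace Pool.Agent.Results.MP_ff7320_nt.CentralValueMoments

open Polynomial

/-- The affine points of the curve `y² = f(x) + A x + B` over the residue ring `F[t] ⧸ P`. -/
def affinePoints {F : Type} [Field F] (f : F[X][X]) (A B P : F[X]) :
    Set ((F[X] ⧸ Ideal.span {P}) × (F[X] ⧸ Ideal.span {P})) :=
  {z | z.2 ^ 2 = (f.map (Ideal.Quotient.mk (Ideal.span {P}))).eval z.1 +
    Ideal.Quotient.mk (Ideal.span {P}) A * z.1 + Ideal.Quotient.mk (Ideal.span {P}) B}

/-- The trace of Frobenius of the curve `y² = f(x) + A x + B` at the place `P`, `f` a monic cubic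
polynomial: the number of elements of the residue field minus the number of affine points. -/
noncomputable def frobeniusTrace {F : Type} [Field F] (f : F[X][X]) (A B P : F[X]) : ℝ :=
  (Nat.card F : ℝ) ^ P.natDegree - (affinePoints f A B P).ncard

/-- The reduction modulo `P` is smooth: `f(x) + A x + B` has no double root in the residue field (a double
root of a cubic polynomial over a finite field lies in the field). -/
def IsGood {F : Type} [Field F] (f : F[X][X]) (A B P : F[X]) : Prop :=
  ∀ x : F[X] ⧸ Ideal.span {P}, ¬ ((f.map (Ideal.Quotient.mk (Ideal.span {P}))).eval x +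
    Ideal.Quotient.mk (Ideal.span {P}) A * x + Ideal.Quotient.mk (Ideal.span {P}) B = 0 ∧
    (derivative (f.map (Ideal.Quotient.mk (Ideal.span {P})))).eval x +
      Ideal.Quotient.mk (Ideal.span {P}) A = 0)

/-- The monic irreducible polynomials of degree `e`. -/
def places (F : Type) [Field F] (e : ℕ) : Set F[X] := {P | P.Monic ∧ Irreducible P ∧ P.natDegree = e}

/-- The `L`-function of the elliptic curve `y² = f(x) + A x + B` over `F(t)`, `f` a monic cubic polynomial.
It is the polynomial `∏ (1 - α i T)`, and equal to the product of the inverses of the local factors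
`∏ (1 - loc P i T^(deg P))` at the finite places and `∏ (1 - inf i T)` at infinity; `formula` is the
logarithmic derivative of this identity. -/
structure LFunction {F : Type} [Field F] (f : F[X][X]) (A B : F[X]) (K : ℝ) where
  /-- the degree of the `L`-function -/
  D : ℕ
  /-- the reciprocal zeros of the `L`-function -/
  α : Fin D → ℂ
  /-- the eigenvalues of Frobenius at the finite places (zero, if the local factor has smaller degree) -/
  loc : F[X] → Fin 2 → ℂ
  /-- the eigenvalues at the place at infinity -/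
  inf : Fin 2 → ℂ
  size : (D : ℝ) ≤ K
  norm_α : ∀ i, ‖α i‖ = Nat.card F
  norm_loc : ∀ P, P.Monic → Irreducible P → ∀ i, ‖loc P i‖ ≤ √(Nat.card F) ^ P.natDegree
  norm_inf : ∀ i, ‖inf i‖ ≤ √(Nat.card F)
  sum_loc : ∀ P, P.Monic → Irreducible P → IsGood f A B P → ∑ i, loc P i = (frobeniusTrace f A B P : ℂ)
  prod_loc : ∀ P, P.Monic → Irreducible P → IsGood f A B P →
    loc P 0 * loc P 1 = (Nat.card F : ℂ) ^ P.natDegree
  formula : ∀ n : ℕ, 1 ≤ n → ∑ i, α i ^ n =
    -(∑ e ∈ n.divisors, ∑ᶠ P ∈ places F e, (e : ℂ) * ∑ i, loc P i ^ (n / e) + ∑ i, inf i ^ n)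

/-- The absolute value of the `L`-function at the central point `T = q⁻¹`. -/
noncomputable def LFunction.centralValue {F : Type} [Field F] {f : F[X][X]} {A B : F[X]} {K : ℝ}
    (E : LFunction f A B K) : ℝ := ‖∏ i, (1 - E.α i / Nat.card F)‖

/-- the translation of the data -/
noncomputable def LFunction.toLD {F : Type} [Field F] [Fintype F] {f : F[X][X]} {A B : F[X]} {K : ℝ}
    (E : LFunction f A B K) : Pool.Agent.N430.CV.LD f A B K where
  D := E.D
  α := E.α
  loc := E.loc
  inf := E.inf
  hD := E.size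
  hα := fun i => by rw [E.norm_α i, Nat.card_eq_fintype_card]
  hloc := fun P h1 h2 i => by
    have := E.norm_loc P h1 h2 i
    rwa [Nat.card_eq_fintype_card] at this
  hinf := fun i => by
    have := E.norm_inf i
    rwa [Nat.card_eq_fintype_card] at this
  htr := fun P h1 h2 h3 => by
    rw [E.sum_loc P h1 h2 h3]
    unfold frobeniusTrace
    rw [Nat.card_eq_fintype_card]
    rfl
  hpr := fun P h1 h2 h3 => by
    rw [E.prod_loc P h1 h2 h3, Nat.card_eq_fintype_card]
  hform := fun n hn => by
    classical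
    rw [E.formula n hn]
    congr 2
    refine Finset.sum_congr rfl fun e _ => ?_
    have h1 : places F e = ((Pool.Agent.N430.BP.FF.IR F e : Finset F[X]) : Set F[X]) := by
      ext P
      unfold places
      rw [Finset.mem_coe, Pool.Agent.N430.BP.FF.mem_IR]
      rfl
    rw [h1, finsum_mem_coe_finset]

lemma value_eq {F : Type} [Field F] [Fintype F] {f : F[X][X]} {A B : F[X]} {K : ℝ}
    (E : LFunction f A B K) : E.centralValue = E.toLD.val := by
  unfold LFunction.centralValue Pool.Agent.N430.CV.LD.val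
  rw [norm_prod, Nat.card_eq_fintype_card]
  rfl

/-- **The moments of the central values.** -/
theorem result (t ε : ℝ) (ht : 0 < t) (hε : 0 < ε) :
    (∃ C : ℝ, 0 < C ∧ ∀ (F : Type) [Field F] [Finite F], ringChar F ≠ 2 → ∀ d : ℕ, 1 ≤ d →
      ∀ S : Finset (F[X] × F[X]), (∀ v ∈ S, v.1.degree < 4 * d ∧ v.2.degree < 6 * d) →
      ∀ (E : ∀ v : S, LFunction (X ^ 3 : F[X][X]) v.1.1 v.1.2 (12 * d)),
        (∑ v, (E v).centralValue ^ t) ≤ C * (d : ℝ) ^ (t * (t - 1) / 2 + ε) * (Nat.card F : ℝ) ^ (10 * d) ∧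
        ({v | (d : ℝ) ^ (t - 1 / 2) ≤ (E v).centralValue}.ncard : ℝ) ≤
          C * (d : ℝ) ^ (-(t ^ 2 / 2) + ε) * (Nat.card F : ℝ) ^ (10 * d)) ∧
    (∀ κ : ℝ, 1 ≤ κ → ∃ C : ℝ, 0 < C ∧ ∀ (F : Type) [Field F] [Finite F], ringChar F ≠ 2 →
      ∀ N : ℕ, 1 ≤ N → ∀ f : F[X][X], f.Monic → f.natDegree = 3 →
      ∀ S : Finset (F[X] × F[X]), (∀ v ∈ S, v.1.degree < N ∧ v.2.degree < N) →
      ∀ (E : ∀ v : S, LFunction f v.1.1 v.1.2 (κ * N)),
        (∑ v, (E v).centralValue ^ t) ≤ C * (N : ℝ) ^ (t * (t - 1) / 2 + ε) * (Nat.card F : ℝ) ^ (2 * N)) := by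
  classical
  refine ⟨?_, fun κ hκ => ?_⟩
  · obtain ⟨C, hC, H⟩ := Pool.Agent.N430.CV.mom_ell ht hε
    refine ⟨C, hC, fun F _ _ h2 d hd S hS E => ?_⟩
    have : Fintype F := Fintype.ofFinite F
    have h1 := H F h2 d hd S (fun v => v.1) Subtype.val_injective (fun v => hS v.1 v.2)
      (fun v => (E v).toLD)
    have h3 : (∑ v, (E v).centralValue ^ t) ≤
        C * (d : ℝ) ^ (t * (t - 1) / 2 + ε) * (Nat.card F : ℝ) ^ (10 * d) := by
      rw [Nat.card_eq_fintype_card]
      refine le_trans (le_of_eq ?_) h1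
      exact Finset.sum_congr rfl fun v _ => by rw [value_eq]
    refine ⟨h3, ?_⟩
    have hd0 : (0 : ℝ) < d := by exact_mod_cast hd
    have h4 : {v | (d : ℝ) ^ (t - 1 / 2) ≤ (E v).centralValue} =
        ((Finset.univ.filter fun v => (d : ℝ) ^ (t - 1 / 2) ≤ (E v).centralValue : Finset S) : Set S) := by
      ext v
      simp
    rw [h4, Set.ncard_coe_finset]
    have h5 : ((Finset.univ.filter fun v => (d : ℝ) ^ (t - 1 / 2) ≤ (E v).centralValue).card : ℝ) *
        (d : ℝ) ^ ((t - 1 / 2) * t) ≤ ∑ v, (E v).centralValue ^ t := by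
      calc ((Finset.univ.filter fun v => (d : ℝ) ^ (t - 1 / 2) ≤ (E v).centralValue).card : ℝ) *
          (d : ℝ) ^ ((t - 1 / 2) * t) =
          ∑ v ∈ Finset.univ.filter fun v => (d : ℝ) ^ (t - 1 / 2) ≤ (E v).centralValue,
            (d : ℝ) ^ ((t - 1 / 2) * t) := by
            rw [Finset.sum_const, nsmul_eq_mul]
        _ ≤ ∑ v ∈ Finset.univ.filter fun v => (d : ℝ) ^ (t - 1 / 2) ≤ (E v).centralValue,
            (E v).centralValue ^ t := by
            refine Finset.sum_le_sum fun v hv => ?_
            rw [Finset.mem_filter] at hv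
            rw [Real.rpow_mul hd0.le]
            exact Real.rpow_le_rpow (by positivity) hv.2 ht.le
        _ ≤ _ := Finset.sum_le_sum_of_subset_of_nonneg (Finset.subset_univ _) fun v _ _ =>
            Real.rpow_nonneg (norm_nonneg _) t
    have h6 := h5.trans h3
    have h7 : 0 < (d : ℝ) ^ ((t - 1 / 2) * t) := Real.rpow_pos_of_pos hd0 _
    rw [← le_div_iff₀ h7] at h6
    refine h6.trans (le_of_eq ?_)
    have h8 : (d : ℝ) ^ (t * (t - 1) / 2 + ε) = (d : ℝ) ^ (-(t ^ 2 / 2) + ε) * (d : ℝ) ^ ((t - 1 / 2) * t) := by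
      rw [← Real.rpow_add hd0]
      congr 1
      ring
    rw [h8]
    field_simp
  · obtain ⟨C, hC, H⟩ := Pool.Agent.N430.CV.mom_family hκ ht hε
    refine ⟨C, hC, fun F _ _ h2 N hN f hf hfd S hS E => ?_⟩
    have : Fintype F := Fintype.ofFinite F
    have h1 := H F h2 f hf hfd N hN S (fun v => (⟨v.1.1, mem_degreeLT.2 (hS v.1 v.2).1⟩,
      ⟨v.1.2, mem_degreeLT.2 (hS v.1 v.2).2⟩)) (by
        intro v w hvw
        apply Subtype.ext
        exact Prod.ext (congrArg (fun z => (z.1 : F[X])) hvw) (congrArg (fun z => (z.2 : F[X])) hvw))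
      (fun v => (E v).toLD)
    rw [Nat.card_eq_fintype_card]
    refine le_trans (le_of_eq ?_) h1
    exact Finset.sum_congr rfl fun v _ => by rw [value_eq]

end Pool.Agent.Results.MP_ff7320_nt.CentralValueMoments
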