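import Mathlib
import Pool.Agent.N181.TD.Index

/-!
# The ranks of the coverings of the rational elliptic surfaces of full level two

`k` is a field of characteristic different from `2`, for example a finite field, and
`E₀ : y² = x (x - a) (x - b)` is an elliptic curve over `k(s)`, `a`, `b` polynomials of degree at most `2`
such that `a b (a - b)` is separable of degree at least five (`Full2`): the rational elliptic surfaces with
full level two and six fibres of type `I₂`. `E` is the pullback of `E₀` by a map `s = q(t) / r(t)` of ODD
degree `n` with exactly one closed point, inert or ramified, above each of the bad places of `E₀`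
(`CoverG`). `L` is a finite extension of `k` of degree prime to `n`, `L'` a separable closure of `L`. Then

* the Tate conjecture for divisors at the prime `2` holds for `E` over `L(t)` (`TateQ`);
* if the group `E(L'(t))` is finitely generated (Lang-Neron) then the index of the pullback of the group
  `E₀(L(s))` in `E(L(t))` is finite and odd: the rank does not grow (`PointsIdx2`).

So for finite fields `k` the curve `E` over `L(t)` satisfies the conjecture of Birch and Swinnerton-Dyer
(Tate, Milne), and its analytic rank is the rank of the rational elliptic surface `E₀` over `L(s)`, although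
the degree of the `L`-function and the genus are not bounded. The coverings which are inert above the bad
places (`CoverF`), and the polynomial coverings (`PolyCover`) are examples (parts two and three); for finite
fields there are towers `s = λ t ^ (ℓ ^ j)` of the latter (part four), also if zero and infinity are bad
points: the ranks are constant in these towers of fields `k(s)((s / λ) ^ (1 / ℓ ^ j))`.

The proof: over an extension `M` of `L` whose degree is a power of two there are linear polynomials `p`, `q₀`,
`r₀` with `a = p² - q₀²`, `b = p² - r₀²`, `p = α q₀ + β r₀`, and four points on `E₀`, of abscissae `0`, `a`,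
`(p + q₀) (p + r₀)` and a constant times it. The classes allowed by the local conditions for the pullback are
the classes of the combinations of the pullbacks of these points, so that each point of `E` over `M(t)` is
twice a point plus the pullback of a point of `E₀` over `M(s)` (`mw_nf`). So the index over `M(t)` is odd, and
the points over `L(t)` whose multiples are pulled back over `M(t)` are pulled back over `L(t)`.
-/

set_option autoImplicit false
set_option linter.all false

open Polynomial IsDedekindDomain WeierstrassCurve WeierstrassCurve.Affine
open scoped Classical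

namespace Pool.Agent.Results.MP_ff7320_nt.RanksFullLevelTwo

open Pool.Agent.N181.TC (Full2 surfF CoverF)
open Pool.Agent.N181.TD
open Pool.Agent.N181.P8 (TateQ)
open Pool.Agent.TH115.GD (IsTower)
open Pool.Agent.X243.Gen (pb)

/-- The conclusions: the Tate conjecture at `2` and the index of the pulled back points, over all the
finite extensions `L` of `k` of degree prime to `n`. -/
def Holds {k : Type} [Field k] (q r : k[X]) (n : ℕ) (a b : k[X]) : Prop :=
  ∀ (L L' K₀ K F : Type) [Field L] [Field L'] [Field K₀] [Field K] [Field F]
    [Algebra k L] [FiniteDimensional k L] [Algebra L L'] [Algebra L[X] K₀] [IsFractionRing L[X] K₀]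
    [Algebra L[X] K] [Algebra L'[X] F] [IsFractionRing L'[X] F] [Algebra K F],
    IsTower L L' K F → Nat.Coprime n (Module.finrank k L) →
    TateQ (F := F) 2 L' (surfF K (q.map (algebraMap k L)) (r.map (algebraMap k L))
      (a.map (algebraMap k L)) (b.map (algebraMap k L))) ∧
    PointsIdx2 K₀ K F (q.map (algebraMap k L)) (r.map (algebraMap k L))
      (a.map (algebraMap k L)) (b.map (algebraMap k L))

theorem result :
    -- the coverings
    (∀ (k : Type) [Field k] (a b q r : k[X]) (n : ℕ), Full2 a b → CoverG q r n a b →
      Holds q r n a b) ∧
    -- the coverings which are inert above the bad places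
    (∀ (k : Type) [Field k] (a b q r : k[X]) (n : ℕ), Full2 a b → CoverF q r n a b →
      CoverG q r n a b) ∧
    -- the polynomial coverings
    (∀ (k : Type) [Field k] (a b q : k[X]), Full2 a b → PolyCover q a b →
      CoverG q 1 q.natDegree a b) ∧
    -- infinite towers over finite fields
    (∀ (k : Type) [Field k] [Finite k] (a b : k[X]), Full2 a b →
      (a * b * (a - b)).Splits → ∀ ℓ : ℕ, ℓ.Prime →
        ℓ ∣ Nat.card k - 1 → ((a * b * (a - b)).roots.toFinset.erase 0).card < ℓ →
        ∃ lam : k, lam ≠ 0 ∧ ∀ j : ℕ, CoverG (C lam * X ^ ℓ ^ j) 1 (ℓ ^ j) a b) := by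
  have h3 : ∀ (k : Type) [Field k] (a b q : k[X]), PolyCover q a b →
      CoverG q 1 q.natDegree a b := by
    intro k _ a b q hC
    have hq0 : 0 < q.natDegree := by
      rcases Nat.eq_zero_or_pos q.natDegree with h | h
      · exact absurd (h ▸ dvd_zero 2) hC.odd
      · exact h
    exact ⟨isCoprime_one_right, hq0, le_rfl, by rw [natDegree_one]; exact Nat.zero_le _, hC.odd,
      fun π h1 h2 => (hC.fin π h1 h2).above, fun _ => Or.inl rfl⟩
  refine ⟨?_, ?_, fun k _ a b q _ hC => h3 k a b q hC, ?_⟩
  · intro k _ a b q r n hB hC L L' K₀ K F _ _ _ _ _ _ _ _ _ _ _ _ _ _ hT hn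
    exact mainG hT hB hC hn
  · intro k _ a b q r n hB hC
    refine ⟨hC.co, hC.qp, hC.qn, hC.rn, hC.odd, fun π h1 h2 => ?_, fun h => ?_⟩
    · obtain ⟨i1, i2, i3⟩ := hC.fin π h1 h2
      exact ⟨pb q r π, 1, n, 1, one_ne_zero, i1, i2, one_mul n, i3, by rw [C_1, one_mul, pow_one]⟩
    · obtain ⟨i1, i2, i3⟩ := hC.inf h
      exact Or.inr ⟨r, 1, n, 1, one_ne_zero, i1, i2, one_mul n, i3, by rw [C_1, one_mul, pow_one]⟩
  · intro k _ _ a b hB hs ℓ hℓ hd hS
    have h0 := hB.sep.ne_zero
    obtain ⟨lam, hl, hlam⟩ := exists_lam ((a * b * (a - b)).roots.toFinset.erase 0)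
      (Finset.notMem_erase 0 _) hd hS
    -- the number of nonzero roots is at least four
    have h4 : 4 ≤ ((a * b * (a - b)).roots.toFinset.erase 0).card := by
      have h1 : 5 ≤ (a * b * (a - b)).roots.toFinset.card := by
        rw [Multiset.toFinset_card_of_nodup (nodup_roots hB.sep), splits_iff_card_roots.1 hs]
        exact hB.deg
      have := Finset.pred_card_le_card_erase (s := (a * b * (a - b)).roots.toFinset) (a := (0 : k))
      omega
    refine ⟨lam, hl, fun j => ?_⟩
    have hdeg : (C lam * X ^ ℓ ^ j : k[X]).natDegree = ℓ ^ j := natDegree_C_mul_X_pow _ lam hl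
    have hP : PolyCover (C lam * X ^ ℓ ^ j) a b := by
      refine poly_pow hB hs ?_ ?_ hl fun ξ hξ => ?_
      · intro h
        have h1 := Nat.prime_two.dvd_of_dvd_pow h
        rw [Nat.prime_dvd_prime_iff_eq Nat.prime_two hℓ] at h1
        omega
      · rw [Nat.cast_pow]
        apply pow_ne_zero
        intro h
        have h1 : ((Nat.card k : ℕ) : k) = 0 := by
          letI := Fintype.ofFinite k
          rw [Nat.card_eq_fintype_card]
          exact FiniteField.cast_card_eq_zero k
        obtain ⟨m, hm⟩ := hd
        have hc1 : 1 ≤ Nat.card k := Nat.card_pos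
        have h2 : Nat.card k = ℓ * m + 1 := by omega
        rw [h2, Nat.cast_add, Nat.cast_mul, h, zero_mul, zero_add, Nat.cast_one] at h1
        exact one_ne_zero h1
      · by_cases hξ0 : ξ = 0
        · exact Or.inl hξ0
        · right
          intro p hp hpd y
          have e : p = ℓ := (Nat.prime_dvd_prime_iff_eq hp hℓ).1 (hp.dvd_of_dvd_pow hpd)
          rw [e]
          refine hlam ξ (Finset.mem_erase.2 ⟨hξ0, ?_⟩) y
          rw [Multiset.mem_toFinset, mem_roots h0]
          exact hξ
    have := h3 k a b _ hP
    rwa [hdeg] at this

end Pool.Agent.Results.MP_ff7320_nt.RanksFullLevelTwo
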