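import Pool.Agent.N874.TW.Final

/-!
# A positive proportion of all odd hyperelliptic Jacobians, over infinitely many Galois extensions at once

Let `g ≥ 1`, let `k` be a finite field of characteristic larger than `2 g + 1` and `K = k(t)`. Every curve
of genus `g` over `K` with a map of degree two to the projective line and a rational Weierstrass point has
an equation `y ^ 2 = f(x)`, where `f` is a monic polynomial of degree `2 g + 1` over `k[t]` without term of
degree `2 g`, such that there is no irreducible `P` with `P ^ (2 (2 g + 1 - j)) ∣ f_j` for all `j`; its
height is the least `N` with `deg f_j ≤ N (2 g + 1 - j)` for all `j`. For `g = 1` these are all elliptic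
curves over `K`.

For `f` and a finite set `S` of primes of `k[t]` let `E(f, S)` be the class of all the finite Galois
extensions `M` of `K` of 2-power degree in which all `Q ∈ S` split completely and in which only such primes
`P` of `k[t]` are ramified modulo which `f` is irreducible (there is no condition at infinity).

Theorem. For every finite set `T` of primes of `k[t]` there are a finite set `S` of primes, disjoint from
`T`, and a constant `c > 0` such that for all large `N` at least `c` times the number of all the curves of
genus `g` over `K` of height at most `N` have the following property: `f` is irreducible over `K` and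
modulo all `P ∈ T`, and for ALL the extensions `M ∈ E(f, S)` multiplication by two is bijective on `J(M)`,
`J` the Jacobian of the curve, and all classes of 2-power order in the Tate-Shafarevich group of `J` over
`M` are zero, even without conditions at the places over infinity.

Here `J(L)` is the Picard group of the affine coordinate ring `L[x, y] / (y ^ 2 - f)` (the curve has one
point at infinity, which is rational), and the Tate-Shafarevich group is defined by continuous cocycles on
the absolute Galois group with values in `J` of the separable closure.

The group `J(M)` is finite (Lang and Neron), and `Sha(J/M)[2^∞] = 0`. By the theorem of Artin, Tate and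
Milne (for `g = 1`; Schneider, Kato and Trihan for all `g`), in which it is enough to know that ONE primary
part of the Tate-Shafarevich group is finite, the whole group `Sha(J/M)` is finite, and the conjecture of
Birch and Swinnerton-Dyer, rank part and formula, holds for `J` over `M`. In particular (`g = 1`) the
equality of the ranks in Q1 holds for a positive proportion of ALL elliptic curves `E` over `k(t)`, over
ALL the function fields `M ∈ E(f, S)` at once, both sides being `0`: no point of infinite order appears
in the compositum of all the extensions in `E(f, S)`. The class `E(f, S)` is closed under composita and it is infinite for the curves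
which we construct: they are irreducible at infinity, so that the Frobenius automorphism at infinity
permutes the zeros of `f` in one cycle, and by the theorem of Chebotarev `f` is irreducible modulo `P` for a
set of primes `P` of positive density; all the fields `K(√D)`, `D` a product of such primes which is a
square modulo all `Q ∈ S`, are in `E(f, S)`, and similarly there are many non-abelian extensions.

The difference to `MP_89bcae_ag.SurfacesOverTwoCovers` (project JM), where `M` is given first and the set of curves
depends on `M`, is the order of the quantifiers: here one set of curves of positive density works for all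
these extensions. Neither theorem contains the other.

Proof. By a descent (project JB) it is enough that the 2-Selmer group in the explicit form of Cassels and
Schaefer is trivial over `M`. We consider the `f` with squarefree discriminant which are irreducible at
infinity and modulo the `P ∈ T`, and which are `x h_Q(x)`, `h_Q` irreducible, modulo `Q ∈ S`; as in the
case `M = K` (project PJ, `MP_60d5ce_nt.PositiveProportionJacobians`) self-dual lattices of rank `2 g + 1`
over the projective line with a self-adjoint operator, a reciprocity law and linear algebra give for most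
`f` a subset `I` of `S` for which a Selmer group over `K` of the twist of the curve by the product of the
`Q ∈ I` is zero. Now let `M ∈ E(f, S)` and let `θ` be a zero of `f`. The local conditions over `M` define a
group of elements of `M(θ)` modulo squares which is stable under `Gal(M / K)`; it is zero because its
invariant part comes from the Selmer group over `K`. For this one has to know that the primes of `K(θ)` at
which `f'(θ)` is a unit are unramified in `M(θ)`, unless they divide a prime `P` which is ramified in `M`;
but modulo such `P` the polynomial `f` is irreducible, and the parity at the only prime over `P` follows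
from the norm. The primes of degree one which divide `f'(θ)` are treated by the norm as well.

Project TW: helper874, based on the projects JM (helper874), PJ and JB (helper352) and PM, PP (helper874),
with parts by helpers 2, 27, 50, 55, 87, 106, 123, 134, 160, 169, 195, 227, 232, 262, 270, 301, 401, 402,
415, 424, 427, 434, 490, 498, 507, 530, 539, 568, 572, 588, 603, 615, 622, 655, 697, 704, 738, 765, 769,
787, 814.
-/

set_option autoImplicit false
set_option linter.all false

namespace Pool.Agent.Results.MP_ff7320_nt.UniformOverTwoExtensions

open Polynomial Filter IsDedekindDomain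
open Pool.Agent.N874.Jac (UniquelyTwoDivisible ShaTwoTrivial)
open scoped Classical

/-- `y ^ 2 = f(x)` is a minimal equation of a curve of genus `g` with a rational Weierstrass point
over `K = k(t)`, of height at most `N`. -/
structure IsCurve {k : Type} [Field k] (K : Type) [Field K] [Algebra k[X] K] (g N : ℕ)
    (f : k[X][X]) : Prop where
  monic : f.Monic
  degree : f.natDegree = 2 * g + 1
  trace : f.coeff (2 * g) = 0
  height : ∀ j ≤ 2 * g, (f.coeff j).natDegree ≤ N * (2 * g + 1 - j)
  smooth : (f.map (algebraMap k[X] K)).Separable
  minimal : ∀ P : k[X], Irreducible P →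
    ¬ ∀ j < 2 * g + 1, P ^ (2 * (2 * g + 1 - j)) ∣ f.coeff j

/-- The curves of genus `g` over `K = k(t)` of height at most `N`. -/
def Curves (k : Type) [Field k] (K : Type) [Field K] [Algebra k[X] K] (g N : ℕ) : Set k[X][X] :=
  {f | IsCurve K g N f}

/-- Multiplication by two is bijective on `J(M)`, `J` the Jacobian of `y ^ 2 = F(x)`, and every class of
2-power order in `H ^ 1 (M, J)` which is zero over the completions of `M` at all maximal ideals of `R` is
zero. -/
def NoTwoPart (R : Type) {M : Type} [Field M] [CommRing R] [IsDedekindDomain R] [Algebra R M]
    [IsFractionRing R M] (F : M[X]) : Prop :=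
  UniquelyTwoDivisible F ∧ ShaTwoTrivial F R

/-- `f` is irreducible modulo `P`. -/
def IrreducibleMod {k : Type} [Field k] (f : k[X][X]) (P : k[X]) : Prop :=
  Irreducible (f.map (Ideal.Quotient.mk (Ideal.span {P})))

/-- `P` is unramified in the extension `R` of `k[t]`. -/
def Unramified {k : Type} [Field k] (R : Type) [CommRing R] [Algebra k[X] R] (P : k[X]) : Prop :=
  ∀ w : HeightOneSpectrum R, algebraMap k[X] R P ∈ w.asIdeal → algebraMap k[X] R P ∉ w.asIdeal ^ 2

/-- `Q` splits completely in the extension `R` of `k[t]`: it is unramified, and every element of `R` is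
congruent to a polynomial modulo every prime over `Q`. -/
def SplitsCompletely {k : Type} [Field k] (R : Type) [CommRing R] [Algebra k[X] R] (Q : k[X]) :
    Prop :=
  Unramified R Q ∧ ∀ w : HeightOneSpectrum R, algebraMap k[X] R Q ∈ w.asIdeal →
    ∀ y : R, ∃ c : k[X], y - algebraMap k[X] R c ∈ w.asIdeal

/-- The Jacobian of `y ^ 2 = f(x)` has no 2-part over all the finite Galois extensions `M` of `K = k(t)`
of 2-power degree in which the primes `Q ∈ S` split completely and in which only primes are ramified
modulo which `f` is irreducible. Here `R` is the integral closure of `k[t]` in `M`. -/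
def NoTwoPartUniformly {k : Type} [Field k] (K : Type) [Field K] [Algebra k[X] K]
    (S : Finset k[X]) (f : k[X][X]) : Prop :=
  ∀ (M : Type) [Field M] [Algebra K M] [Algebra k[X] M] [IsScalarTower k[X] K M]
    [FiniteDimensional K M] [IsGalois K M] (R : Type) [CommRing R] [IsDedekindDomain R]
    [Algebra R M] [IsFractionRing R M] [Algebra k[X] R] [IsScalarTower k[X] R M]
    [IsIntegralClosure R k[X] M] (n : ℕ), Module.finrank K M = 2 ^ n →
    (∀ Q ∈ S, SplitsCompletely R Q) →
    (∀ P : k[X], Irreducible P → Unramified R P ∨ IrreducibleMod f P) →
    NoTwoPart R (f.map (algebraMap k[X] M))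

/-- The curves of genus `g` over `K` and height at most `N` for which `f` is irreducible over `K` and
modulo all `P ∈ T` and which have no 2-part over all the extensions `M` which belong to `S` and `f`. -/
def UniformlyTrivial (k : Type) [Field k] (K : Type) [Field K] [Algebra k[X] K]
    (S T : Finset k[X]) (g N : ℕ) : Set k[X][X] :=
  {f ∈ Curves k K g N | Irreducible (f.map (algebraMap k[X] K)) ∧ (∀ P ∈ T, IrreducibleMod f P) ∧
    NoTwoPartUniformly K S f}

/-- For every `g ≥ 1`, every finite field `k` of characteristic larger than `2 g + 1` and every finite
set `T` of primes of `k[t]` there are a finite set `S` of primes of `k[t]`, disjoint from `T`, and a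
positive constant `c` such that for all large `N` at least `c` times the number of all the curves of genus
`g` over `K = k(t)` of height at most `N` with a rational Weierstrass point have `f` irreducible over `K`
and modulo all `P ∈ T` and a Jacobian `J` such that for ALL finite Galois extensions `M` of `K` of 2-power
degree in which all `Q ∈ S` split completely and in which only primes are ramified modulo which `f` is
irreducible multiplication by two is bijective on `J(M)` and the 2-primary part of the Tate-Shafarevich
group of `J` over `M` is zero. -/
theorem result (g : ℕ) (hg : 1 ≤ g) (k : Type) [Field k] [Finite k]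
    (hp : ((2 * g + 1).factorial : k) ≠ 0) (K : Type) [Field K] [Algebra k[X] K]
    [IsFractionRing k[X] K] (T : Finset k[X]) (hT : ∀ P ∈ T, P.Monic ∧ Irreducible P) :
    (∀ N : ℕ, (Curves k K g N).Finite) ∧
    ∃ S : Finset k[X], (∀ Q ∈ S, Q.Monic ∧ Irreducible Q) ∧ Disjoint S T ∧
      ∃ c : ℝ, 0 < c ∧ ∀ᶠ N : ℕ in atTop, 0 < (Curves k K g N).ncard ∧
        c * ((Curves k K g N).ncard : ℝ) ≤ ((UniformlyTrivial k K S T g N).ncard : ℝ) := by
  have hsub : ∀ N, Curves k K g N ⊆ {f : k[X][X] | Pool.Agent.N352.PJ.Ht g N f} :=
    fun N f hf => ⟨hf.monic, hf.degree, hf.trace, hf.height⟩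
  have h2 : (2 : k) ≠ 0 := by
    intro h0
    apply hp
    have hd : 2 ∣ (2 * g + 1).factorial := Nat.dvd_factorial (by norm_num) (by omega)
    obtain ⟨e, he⟩ := hd
    rw [he, Nat.cast_mul, Nat.cast_ofNat, h0, zero_mul]
  have hfin : ∀ N, (Curves k K g N).Finite := fun N =>
    (Pool.Agent.N415.PJMAIN.ht_card (k := k) g N).1.subset (hsub N)
  refine ⟨hfin, ?_⟩
  obtain ⟨S, hS, hdis, c, hc, N₀, hN₀⟩ := Pool.Agent.N874.TW.final k hg hp K T hT
  refine ⟨S, hS, hdis, c, hc, ?_⟩
  filter_upwards [eventually_ge_atTop N₀] with N hN
  obtain ⟨hHt, hle⟩ := hN₀ N hN
  have hsub2 : {f : k[X][X] | Pool.Agent.N352.PJ.Ht g N f ∧ Pool.Agent.N352.PJ.Mini g f ∧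
      (f.map (algebraMap k[X] K)).Separable ∧ Irreducible (f.map (algebraMap k[X] K)) ∧
      (∀ P ∈ T, Irreducible (f.map (Ideal.Quotient.mk (Ideal.span {P})))) ∧
      Pool.Agent.N874.TW.Uni K S f f} ⊆ UniformlyTrivial k K S T g N := by
    rintro f ⟨a1, a2, a3, a4, a5, a6⟩
    refine ⟨⟨a1.mon, a1.deg, a1.tr, a1.ht, a3, a2⟩, a4, a5, ?_⟩
    intro M _ _ _ _ _ _ R _ _ _ _ _ _ _ n hn hQ hP
    have hsel : Pool.Agent.N874.JM.SelF R (f.map (algebraMap k[X] M)) := by
      refine a6 M R n hn (fun Q hQS w hw => ?_) (fun P hPm hPi hram => ?_)
      · refine ⟨(Pool.Agent.N874.TW.val_iff Q w hw).2 ((hQ Q hQS).1 w hw), fun y => ?_⟩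
        obtain ⟨y, rfl⟩ := Ideal.Quotient.mk_surjective y
        obtain ⟨b, hb⟩ := (hQ Q hQS).2 w hw y
        exact ⟨b, (Ideal.Quotient.eq.2 hb).symm⟩
      · rcases hP P hPi with h | h
        · obtain ⟨w, hw, hne⟩ := hram
          exact absurd ((Pool.Agent.N874.TW.val_iff P w hw).2 (h w hw)) hne
        · exact h
    obtain ⟨h4, h5⟩ := Pool.Agent.N874.JM.genuine K M R hn h2 a1.mon
      (by rw [a1.deg]; exact odd_two_mul_add_one g) a3 a4 hsel
    exact ⟨Pool.Agent.N874.Jac.div_of _ h4, Pool.Agent.N874.Jac.sha_of _ R h5⟩
  have hfin2 : (UniformlyTrivial k K S T g N).Finite := (hfin N).subset fun f hf => hf.1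
  have h1 := Set.ncard_le_ncard hsub2 hfin2
  have h2 : c * ({f : k[X][X] | Pool.Agent.N352.PJ.Ht g N f}.ncard : ℝ) ≤
      ((UniformlyTrivial k K S T g N).ncard : ℝ) := hle.trans (by exact_mod_cast h1)
  have hne : 0 < {f : k[X][X] | Pool.Agent.N352.PJ.Ht g N f}.ncard := by
    rw [Set.ncard_pos hHt]
    refine ⟨X ^ (2 * g + 1), monic_X_pow _, natDegree_X_pow _, ?_, fun j hj => ?_⟩
    · rw [coeff_X_pow, if_neg (by omega)]
    · rw [coeff_X_pow, if_neg (by omega), natDegree_zero]
      exact Nat.zero_le _
  have h3 : 0 < ((UniformlyTrivial k K S T g N).ncard : ℝ) := by
    refine lt_of_lt_of_le ?_ h2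
    exact mul_pos hc (by exact_mod_cast hne)
  refine ⟨?_, ?_⟩
  · have h4 := Set.ncard_le_ncard (s := UniformlyTrivial k K S T g N) (t := Curves k K g N)
      (fun f hf => hf.1) (hfin N)
    have h5 : 0 < (UniformlyTrivial k K S T g N).ncard := by exact_mod_cast h3
    omega
  · refine le_trans ?_ h2
    have h4 := Set.ncard_le_ncard (hsub N) hHt
    exact mul_le_mul_of_nonneg_left (by exact_mod_cast h4) hc.le

end Pool.Agent.Results.MP_ff7320_nt.UniformOverTwoExtensions
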